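import Mathlib
import Pool.Agent.H519R3.AC.CollMain
import Pool.Agent.H852.QP.Ratio
import Pool.Agent.H852.QP.Num

set_option autoImplicit false

/-!
# General collisions in every characteristic: explicit quasi-polynomial bounds
-/

namespace Pool.Agent.H713R3

open Polynomial Pool.Agent.H932R2 Pool.Agent.H932R3 Pool.Agent.H519R3.AC

universe u

/-- The numerical core: emptiness below and independence above the critical degree. -/
theorem coll_coreQ {K : Type u} [Field K] [Infinite K] {q r : ℕ} (hr : 5 ^ (14 * q + 28) ≤ r)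
    {m : ℕ} (hm : 0 < m) : ∃ F : MvPolynomial (Fin (r + 1)) K, F ≠ 0 ∧
      ∀ (c : K) (a : Fin r → K), MvPolynomial.eval (Fin.cons c a : Fin (r + 1) → K) F ≠ 0 →
        ∀ d : ℕ,
          ((1 + 2 / (r : ℝ) ^ q) * d < m * Real.sqrt r →
              NoForm (jetIdeal m c a) d ∧ JetDim r m c a d) ∧
          (Real.sqrt r * (m + 1) ≤ (1 - 1 / (r : ℝ) ^ q) * d → JetDim r m c a d) := by
  have hr0 : 0 < r := lt_of_lt_of_le (by positivity) hr
  have hrR : (0 : ℝ) < r := by exact_mod_cast hr0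
  have hr5 : 5 ≤ r := by
    refine le_trans ?_ hr
    calc 5 = 5 ^ 1 := by norm_num
      _ ≤ 5 ^ (14 * q + 28) := Nat.pow_le_pow_right (by norm_num) (by omega)
  have hr1 : (5 : ℝ) ≤ r := by exact_mod_cast hr5
  have hmR : (1 : ℝ) ≤ m := by exact_mod_cast hm
  have hs0 : 0 < Real.sqrt r := Real.sqrt_pos.2 hrR
  have hss : Real.sqrt r * Real.sqrt r = r := Real.mul_self_sqrt hrR.le
  have hss' : Real.sqrt r ^ 2 = r := Real.sq_sqrt hrR.le
  have hL : Real.sqrt r ^ (1 + 1) = (r : ℝ) := by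
    rw [pow_succ, pow_one, hss]
  have hL1 : 1 ≤ Real.sqrt r := by
    rw [Real.one_le_sqrt]
    linarith
  have hrat0 := Pool.Agent.H852.QP.ratioQ q hL1 (by
    rw [hss']
    exact_mod_cast hr)
  obtain ⟨μ, hμ⟩ : ∃ μ : ℝ, μ = 1 + 2 / (r : ℝ) ^ q := ⟨_, rfl⟩
  obtain ⟨ν, hν⟩ : ∃ ν : ℝ, ν = 1 - 1 / (r : ℝ) ^ q := ⟨_, rfl⟩
  have hμ1 : 1 ≤ μ := by
    rw [hμ]
    have : 0 < 2 / (r : ℝ) ^ q := by positivity
    linarith
  have hν1 : ν ≤ 1 := by
    rw [hν]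
    have : 0 < 1 / (r : ℝ) ^ q := by positivity
    linarith
  have hrat : ∀ E t : ℕ, t < E → ∃ σ, Pool.Agent.H932R5.Up (Real.sqrt r ^ (E - 1 - t)) σ ∧
      σ ≤ Real.sqrt r ^ (E + 1 - t) ∧ Real.sqrt (Real.sqrt r ^ (E + 1 - t) / σ) ≤ μ := by
    intro E t ht
    obtain ⟨σ, h1, h2, h3, _⟩ := hrat0 E t ht
    rw [hss'] at h3
    exact ⟨σ, h1, h2, by rw [hμ]; exact h3⟩
  have hrat' : ∀ E t : ℕ, t < E → ∃ σ, Pool.Agent.H932R5.Up (Real.sqrt r ^ (E - 1 - t)) σ ∧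
      σ ≤ Real.sqrt r ^ (E + 1 - t) ∧ ν ≤ Real.sqrt (σ / Real.sqrt r ^ (E + 1 - t)) := by
    intro E t ht
    obtain ⟨σ, h1, h2, _, h4⟩ := hrat0 E t ht
    rw [hss'] at h4
    exact ⟨σ, h1, h2, by rw [hν]; exact h4⟩
  rw [← hμ, ← hν]
  -- the critical condition
  obtain ⟨P, hP⟩ : ∃ P : ℕ → Prop, ∀ d, P d ↔ μ ^ 1 * Real.sqrt r ^ 1 * d < ((r * m : ℕ) : ℝ) :=
    ⟨fun d => μ ^ 1 * Real.sqrt r ^ 1 * d < ((r * m : ℕ) : ℝ), fun d => Iff.rfl⟩
  have hrm : (0 : ℝ) < ((r * m : ℕ) : ℝ) := by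
    push_cast
    positivity
  have hP0 : P 0 := by
    rw [hP, Nat.cast_zero, mul_zero]
    exact hrm
  have hPlt : ∀ d, P d → d ≤ r * m := by
    intro d hd
    rw [hP, pow_one, pow_one] at hd
    have h1 : (1 : ℝ) ≤ μ * Real.sqrt r := one_le_mul_of_one_le_of_one_le hμ1 hL1
    have h2 : (d : ℝ) ≤ μ * Real.sqrt r * d := le_mul_of_one_le_left (Nat.cast_nonneg d) h1
    have h3 : (d : ℝ) < ((r * m : ℕ) : ℝ) := lt_of_le_of_lt h2 hd
    exact (by exact_mod_cast h3 : d < r * m).le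
  classical
  obtain ⟨e, he, hemax⟩ : ∃ e, P e ∧ ∀ d, P d → d ≤ e :=
    ⟨Nat.findGreatest P (r * m), Nat.findGreatest_spec (Nat.zero_le _) hP0,
      fun d hd => Nat.le_findGreatest (hPlt d hd) hd⟩
  obtain ⟨F1, hF1, hF1'⟩ : ∃ F : MvPolynomial (Fin (r + 1)) K, F ≠ 0 ∧
      ∀ (c : K) (a : Fin r → K), MvPolynomial.eval (Fin.cons c a : Fin (r + 1) → K) F ≠ 0 →
        RkI (jetIdeal m c a) (Tset e) (Tfin e).card := by
    obtain ⟨c1, g, hR⟩ := rkI_of_FFull (K := K)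
      (full_main (base_coll r m) hrat hL1 hμ1 hL ((hP e).1 he))
    exact hop_cIdeal hr0 hR
  -- the upper side
  obtain ⟨F2, hF2, hF2'⟩ : ∃ F : MvPolynomial (Fin (r + 1)) K, F ≠ 0 ∧
      ∀ (c : K) (a : Fin r → K), MvPolynomial.eval (Fin.cons c a : Fin (r + 1) → K) F ≠ 0 →
        ∀ d : ℕ, Real.sqrt r * (m + 1) ≤ ν * d → JetDim r m c a d := by
    by_cases hν0 : 0 < ν
    · have hex : ∃ f : ℕ, Real.sqrt r * (m + 1) ≤ ν * f := by
        obtain ⟨f, hf⟩ := exists_nat_ge (Real.sqrt r * (m + 1) / ν)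
        refine ⟨f, ?_⟩
        rw [div_le_iff₀ hν0] at hf
        linarith
      obtain ⟨f, hf, hfmin⟩ : ∃ f : ℕ, Real.sqrt r * (m + 1) ≤ ν * f ∧
          ∀ d : ℕ, Real.sqrt r * (m + 1) ≤ ν * d → f ≤ d :=
        ⟨Nat.find hex, Nat.find_spec hex, fun d hd => Nat.find_min' hex hd⟩
      have h1 : FRk (collFam K r m) (Pool.Agent.H932R5.Td 1 f) (r * (m + 1).choose (1 + 1)) :=
        rk_main (base_coll r m) hm hrat' hL1 hν0 hν1 hL (by
          rw [pow_one]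
          push_cast
          exact hf)
      obtain ⟨c1, g, hR⟩ := rkI_of_FRk Td_Tset h1
      obtain ⟨F, hF, hF'⟩ := hop_cIdeal hr0 hR
      exact ⟨F, hF, fun c a hc d hd => jet_indep (hF' c a hc) d (hfmin d hd)⟩
    · refine ⟨1, one_ne_zero, fun c a _ d hd => ?_⟩
      exfalso
      have h1 : ν * (d : ℝ) ≤ 0 := mul_nonpos_of_nonpos_of_nonneg (by linarith) (Nat.cast_nonneg d)
      have h2 : 0 < Real.sqrt r * ((m : ℝ) + 1) := by positivity
      linarith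
  refine ⟨F1 * F2, mul_ne_zero hF1 hF2, fun c a hPe d => ?_⟩
  rw [map_mul] at hPe
  have hR1 := hF1' c a (left_ne_zero_of_mul hPe)
  have hR2 := hF2' c a (right_ne_zero_of_mul hPe)
  refine ⟨fun hd => ?_, hR2 d⟩
  have hPd : P d := by
    rw [hP, pow_one, pow_one]
    have h1 := mul_lt_mul_of_pos_left hd hs0
    have h2 : Real.sqrt r * (m * Real.sqrt r) = r * m := by
      calc Real.sqrt r * (m * Real.sqrt r) = (Real.sqrt r * Real.sqrt r) * m := by ring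
        _ = r * m := by rw [hss]
    push_cast
    calc μ * Real.sqrt r * d = Real.sqrt r * (μ * d) := by ring
      _ < Real.sqrt r * (m * Real.sqrt r) := h1
      _ = r * m := h2
  exact ⟨(NoForm.of_rk hR1).mono (hemax d hPd), jet_full hR1 d (hemax d hPd)⟩

/-- Integrality: for small multiplicities the error disappears. -/
theorem coll_exact {r p m d : ℕ} (hr : 5 ^ (28 * p + 56) ≤ r) (hm : (m : ℝ) ≤ (r : ℝ) ^ p)
    (h : (d : ℝ) < m * Real.sqrt r) :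
    (1 + 2 / (r : ℝ) ^ (2 * p + 2)) * d < m * Real.sqrt r := by
  have hr6 : 6 ≤ r := by
    refine le_trans ?_ hr
    calc 6 ≤ 5 ^ 56 := by norm_num
      _ ≤ 5 ^ (28 * p + 56) := Nat.pow_le_pow_right (by norm_num) (by omega)
  have hrR : (6 : ℝ) ≤ r := by exact_mod_cast hr6
  have hrR0 : (0 : ℝ) < r := by linarith
  have hss : Real.sqrt r * Real.sqrt r = r := Real.mul_self_sqrt hrR0.le
  obtain ⟨y, hy⟩ : ∃ y : ℝ, y = 2 / (r : ℝ) ^ (2 * p + 2) := ⟨_, rfl⟩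
  rw [← hy]
  have hy0 : 0 < y := by rw [hy]; positivity
  have hm0 : (0 : ℝ) ≤ m := Nat.cast_nonneg m
  have hd0 : (0 : ℝ) ≤ d := Nat.cast_nonneg d
  have hs0 : 0 < Real.sqrt r := Real.sqrt_pos.2 hrR0
  have hy3 : 3 * y * (r * (m : ℝ) ^ 2) ≤ 1 := by
    have h1 : (m : ℝ) ^ 2 ≤ ((r : ℝ) ^ p) ^ 2 := pow_le_pow_left₀ hm0 hm 2
    have h2 : y * (r : ℝ) ^ (2 * p + 2) = 2 := by
      rw [hy]
      field_simp
    have h3 : (r : ℝ) * ((r : ℝ) ^ p) ^ 2 * r = (r : ℝ) ^ (2 * p + 2) := by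
      ring
    have h4 : y * (r * ((r : ℝ) ^ p) ^ 2) * r = 2 := by
      rw [← h2, ← h3]
      ring
    have h5 : 0 ≤ y * (r * ((r : ℝ) ^ p) ^ 2) := by positivity
    have h6 : y * (r * ((r : ℝ) ^ p) ^ 2) * 6 ≤ 2 := by
      rw [← h4]
      exact mul_le_mul_of_nonneg_left hrR h5
    have h7 : y * (r * (m : ℝ) ^ 2) ≤ y * (r * ((r : ℝ) ^ p) ^ 2) := by gcongr
    linarith
  have hy1 : y ≤ 1 := by
    rw [hy, div_le_one (by positivity)]
    calc (2 : ℝ) ≤ r := by linarith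
      _ ≤ (r : ℝ) ^ (2 * p + 2) := le_self_pow₀ (by linarith) (by omega)
  have hsq : ((m : ℝ) * Real.sqrt r) ^ 2 = r * (m : ℝ) ^ 2 := by
    calc ((m : ℝ) * Real.sqrt r) ^ 2 = (Real.sqrt r * Real.sqrt r) * (m : ℝ) ^ 2 := by ring
      _ = _ := by rw [hss]
  have hint : (d : ℝ) ^ 2 ≤ r * (m : ℝ) ^ 2 - 1 := by
    have h1 := mul_self_lt_mul_self hd0 h
    have h2 : (m : ℝ) * Real.sqrt r * (m * Real.sqrt r) = r * (m : ℝ) ^ 2 := by
      rw [← pow_two, hsq]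
    rw [h2] at h1
    have h3 : d * d < r * m ^ 2 := by exact_mod_cast h1
    have h4 : d * d + 1 ≤ r * m ^ 2 := h3
    have h5 : ((d * d + 1 : ℕ) : ℝ) ≤ ((r * m ^ 2 : ℕ) : ℝ) := by exact_mod_cast h4
    push_cast at h5
    nlinarith
  refine lt_of_pow_lt_pow_left₀ 2 (by positivity) ?_
  rw [hsq, mul_pow]
  obtain ⟨Z, hZ⟩ : ∃ Z : ℝ, Z = r * (m : ℝ) ^ 2 := ⟨_, rfl⟩
  rw [← hZ] at hint hy3 ⊢
  have hZ0 : 0 ≤ Z := by rw [hZ]; positivity
  have h3 : (1 + y) ^ 2 * (d : ℝ) ^ 2 ≤ (1 + y) ^ 2 * (Z - 1) :=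
    mul_le_mul_of_nonneg_left hint (by positivity)
  have h4 : y * y * Z ≤ y * 1 * Z := by gcongr
  nlinarith

/-- The conditions on the degree, for `r ≥ 5 ^ 168`. -/
theorem coll_win {K : Type u} [Field K] [Infinite K] {r : ℕ} (hr : 5 ^ 168 ≤ r)
    {m : ℕ} (hm : 0 < m) : ∃ F : MvPolynomial (Fin (r + 1)) K, F ≠ 0 ∧
      ∀ (c : K) (a : Fin r → K), MvPolynomial.eval (Fin.cons c a : Fin (r + 1) → K) F ≠ 0 →
        ∀ d : ℕ,
          (((d : ℝ) ≤ (1 - Real.exp (-(Real.log r ^ 2 / 31))) * (m * Real.sqrt r) ∨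
            ((m : ℝ) ≤ Real.exp (Real.log r ^ 2 / 92) ∧ (d : ℝ) < m * Real.sqrt r)) →
              NoForm (jetIdeal m c a) d ∧ JetDim r m c a d) ∧
          (Real.sqrt r * (m + 1) ≤ (1 - Real.exp (-(Real.log r ^ 2 / 31))) * d →
            JetDim r m c a d) := by
  obtain ⟨q, hq1, hq2⟩ := Pool.Agent.H852.QP.exists_q_exp hr
  obtain ⟨p, hp1, hp2⟩ := Pool.Agent.H852.QP.exists_p_exp hr
  obtain ⟨x, hx⟩ : ∃ x, x = Real.exp (-(Real.log r ^ 2 / 31)) := ⟨_, rfl⟩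
  have hx0 : 0 < x := by rw [hx]; exact Real.exp_pos _
  rw [← hx] at hq2 ⊢
  have hr0 : 0 < r := lt_of_lt_of_le (by positivity) hr
  have hrR : (0 : ℝ) < r := by exact_mod_cast hr0
  have hs0 : 0 < Real.sqrt r := Real.sqrt_pos.2 hrR
  have hmR : (1 : ℝ) ≤ m := by exact_mod_cast hm
  obtain ⟨F1, hF1, hF1'⟩ := coll_coreQ (K := K) hq1 hm
  obtain ⟨F2, hF2, hF2'⟩ := coll_coreQ (K := K) (q := 2 * p + 2) (r := r) (by
    have : 14 * (2 * p + 2) + 28 = 28 * p + 56 := by ring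
    rw [this]
    exact hp1) hm
  refine ⟨F1 * F2, mul_ne_zero hF1 hF2, fun c a hPe d => ?_⟩
  rw [map_mul] at hPe
  have hR1 := hF1' c a (left_ne_zero_of_mul hPe) d
  have hR2 := hF2' c a (right_ne_zero_of_mul hPe) d
  constructor
  · rintro (hd | ⟨hd1, hd2⟩)
    · refine hR1.1 ?_
      have h2 : (1 + 2 / (r : ℝ) ^ q) * (d : ℝ) ≤ (1 + x) * d :=
        mul_le_mul_of_nonneg_right (by linarith) (Nat.cast_nonneg d)
      have h3 : (1 + x) * (d : ℝ) ≤ (1 + x) * ((1 - x) * (m * Real.sqrt r)) :=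
        mul_le_mul_of_nonneg_left hd (by linarith)
      have h4 : (1 + x) * ((1 - x) * ((m : ℝ) * Real.sqrt r)) =
          m * Real.sqrt r - x * x * (m * Real.sqrt r) := by ring
      have h5 : 0 < x * x * ((m : ℝ) * Real.sqrt r) := by positivity
      linarith
    · exact hR2.1 (coll_exact hp1 (hd1.trans hp2) hd2)
  · intro hd
    refine hR1.2 (hd.trans ?_)
    refine mul_le_mul_of_nonneg_right ?_ (Nat.cast_nonneg d)
    have : 1 / (r : ℝ) ^ q ≤ 2 / (r : ℝ) ^ q := by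
      apply div_le_div_of_nonneg_right (by norm_num) (by positivity)
    linarith

end Pool.Agent.H713R3
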