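import Mathlib
import Pool.Agent.H852.QP.Main

set_option autoImplicit false

/-!
# Effective classes at generic points of the plane, every characteristic
-/

namespace Pool.Agent.H713R3

open MvPolynomial Pool.Agent.H932R5 Pool.Agent.H519R3.AC

universe u

/-- Independent conditions at generic points. -/
theorem surjQ {k : Type u} [Field k] [IsAlgClosed k] {r q : ℕ} (hr : 5 ^ (14 * q + 28) ≤ r)
    {P : Fin r → Fin 2 → k}
    (hP : AlgebraicIndependent (⊥ : Subfield k) (fun ij : Fin r × Fin 2 => P ij.1 ij.2))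
    {w : Fin r → ℕ} {d : ℕ}
    (hd : ∀ i, Real.sqrt r * (w i + 1) ≤ (1 - 1 / (r : ℝ) ^ q) * d) :
    SurjAt (E := 1) w P d := by
  have hr0 : 0 < r := lt_of_lt_of_le (by positivity) hr
  have hrR : (0 : ℝ) < r := by exact_mod_cast hr0
  have hr5 : 5 ≤ r := by
    refine le_trans ?_ hr
    calc 5 = 5 ^ 1 := by norm_num
      _ ≤ 5 ^ (14 * q + 28) := Nat.pow_le_pow_right (by norm_num) (by omega)
  have hr1 : (5 : ℝ) ≤ r := by exact_mod_cast hr5
  have hss : Real.sqrt r ^ 2 = r := Real.sq_sqrt hrR.le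
  have hL1 : 1 ≤ Real.sqrt r := by
    rw [Real.one_le_sqrt]
    linarith
  have hrat := Pool.Agent.H852.QP.ratioQ q hL1 (by
    rw [hss]
    exact_mod_cast hr)
  rcases Nat.eq_zero_or_pos q with hq | hq
  · subst hq
    exfalso
    have h1 := hd ⟨0, hr0⟩
    rw [pow_zero, div_one, sub_self, zero_mul] at h1
    have h2 : 0 < Real.sqrt r * ((w ⟨0, hr0⟩ : ℝ) + 1) := by positivity
    linarith
  · have hrq : (r : ℝ) ≤ (r : ℝ) ^ q := le_self_pow₀ (by linarith) (by omega)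
    have hν : 1 / (r : ℝ) ^ q ≤ 1 / 5 := one_div_le_one_div_of_le (by norm_num) (by linarith)
    have hν2 : 0 < 1 / (r : ℝ) ^ q := by positivity
    refine Pool.Agent.H852.QP.surjAt_generic (E := 1) (w := w) hP (L := Real.sqrt r)
      (ν := 1 - 1 / (r : ℝ) ^ q) (fun E t ht => ?_) hL1 (by linarith) (by linarith) ?_
      (fun i => ?_)
    · obtain ⟨σ, h1, h2, _, h4⟩ := hrat E t ht
      rw [hss] at h4
      exact ⟨σ, h1, h2, h4⟩
    · exact hss
    · rw [pow_one]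
      have h5 := hd i
      push_cast
      exact h5

/-- No nonzero form, for classes below the critical slope. -/
theorem empty_win {k : Type u} [Field k] [IsAlgClosed k] {r : ℕ} (hr : 5 ^ 168 ≤ r)
    {P : Fin r → Fin 2 → k}
    (hP : AlgebraicIndependent (⊥ : Subfield k) (fun ij : Fin r × Fin 2 => P ij.1 ij.2))
    {w : Fin r → ℕ} {d : ℕ} (h0 : 0 < ∑ i, w i)
    (hd : Real.sqrt r * d ≤ (1 - Real.exp (-(Real.log r ^ 2 / 31))) * ∑ i, (w i : ℝ) ∨
      (Real.sqrt r * d < ∑ i, (w i : ℝ) ∧ ∑ i, (w i : ℝ) ≤ Real.exp (Real.log r ^ 2 / 92))) :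
    EmptyAt (E := 1) w P d := by
  obtain ⟨q, hq1, hq2⟩ := Pool.Agent.H852.QP.exists_q_exp hr
  obtain ⟨p, hp1, hp2⟩ := Pool.Agent.H852.QP.exists_p_exp hr
  obtain ⟨x, hx⟩ : ∃ x, x = Real.exp (-(Real.log r ^ 2 / 31)) := ⟨_, rfl⟩
  have hx0 : 0 < x := by rw [hx]; exact Real.exp_pos _
  rw [← hx] at hq2 hd
  have hr0 : 0 < r := lt_of_lt_of_le (by positivity) hr
  have hrR : (0 : ℝ) < r := by exact_mod_cast hr0
  have hs0 : 0 < Real.sqrt r := Real.sqrt_pos.2 hrR
  obtain ⟨M, hM⟩ : ∃ M, M = ∑ i, w i := ⟨_, rfl⟩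
  have hMR : (M : ℝ) = ∑ i, (w i : ℝ) := by rw [hM]; push_cast; rfl
  rw [← hMR] at hd
  rw [← hM] at h0
  have hMpos : (0 : ℝ) < M := by exact_mod_cast h0
  rcases hd with hd | hd
  · refine Pool.Agent.H852.QP.emptyQ hq1 hP ?_
    rw [← hM]
    have h1 : 0 ≤ Real.sqrt r * (d : ℝ) := by positivity
    have h2 : (1 + 2 / (r : ℝ) ^ q) * (Real.sqrt r * d) ≤ (1 + x) * (Real.sqrt r * d) :=
      mul_le_mul_of_nonneg_right (by linarith) h1
    have h3 : (1 + x) * (Real.sqrt r * d) ≤ (1 + x) * ((1 - x) * M) :=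
      mul_le_mul_of_nonneg_left hd (by linarith)
    have h4 : (1 + x) * ((1 - x) * (M : ℝ)) = M - x * x * M := by ring
    have h5 : 0 < x * x * (M : ℝ) := by positivity
    linarith
  · refine Pool.Agent.H852.QP.emptyQ (q := 2 * p + 2) (by
      have : 14 * (2 * p + 2) + 28 = 28 * p + 56 := by ring
      rw [this]
      exact hp1) hP ?_
    rw [← hM]
    exact Pool.Agent.H852.QP.sum_exact hp1 (hd.2.trans hp2) hd.1

/-- Independent conditions above the critical slope. -/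
theorem surj_win {k : Type u} [Field k] [IsAlgClosed k] {r : ℕ} (hr : 5 ^ 168 ≤ r)
    {P : Fin r → Fin 2 → k}
    (hP : AlgebraicIndependent (⊥ : Subfield k) (fun ij : Fin r × Fin 2 => P ij.1 ij.2))
    {w : Fin r → ℕ} {d : ℕ}
    (hd : ∀ i, Real.sqrt r * (w i + 1) ≤ (1 - Real.exp (-(Real.log r ^ 2 / 31))) * d) :
    SurjAt (E := 1) w P d := by
  obtain ⟨q, hq1, hq2⟩ := Pool.Agent.H852.QP.exists_q_exp hr
  have hr0 : 0 < r := lt_of_lt_of_le (by positivity) hr
  have hrR : (0 : ℝ) < r := by exact_mod_cast hr0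
  refine surjQ hq1 hP fun i => (hd i).trans ?_
  refine mul_le_mul_of_nonneg_right ?_ (Nat.cast_nonneg d)
  have : 1 / (r : ℝ) ^ q ≤ 2 / (r : ℝ) ^ q := by
    apply div_le_div_of_nonneg_right (by norm_num) (by positivity)
  linarith

end Pool.Agent.H713R3
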