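import Mathlib
import Pool.Agent.H932R3.Close

set_option autoImplicit false

/-!
# Reachable slopes very close to every large integer, with explicit thresholds
-/

namespace Pool.Agent.H713R3

open Pool.Agent.H932R3

theorem shQ_le (K : ℕ) : shQ K ≤ 5 ^ (K * K + 4 * K + 1) := by
  induction K with
  | zero => norm_num [shQ]
  | succ K ih =>
    have h1 : shQ (K + 1) = shi K * shQ K := by
      rw [shQ]
    rw [h1]
    have h2 : shi K ≤ 5 ^ (K + 5) := by
      unfold shi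
      have : 5 ^ (K + 5) = 25 * 5 ^ (K + 3) := by ring
      rw [this]
      exact Nat.mul_le_mul_right _ (by norm_num)
    calc shi K * shQ K ≤ 5 ^ (K + 5) * 5 ^ (K * K + 4 * K + 1) := Nat.mul_le_mul h2 ih
      _ = 5 ^ (K + 5 + (K * K + 4 * K + 1)) := by rw [pow_add 5 (K + 5)]
      _ ≤ 5 ^ ((K + 1) * (K + 1) + 4 * (K + 1) + 1) := by
          refine Nat.pow_le_pow_right (by norm_num) ?_
          nlinarith

theorem succ_le_pow5 (n : ℕ) : n + 1 ≤ 5 ^ n := by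
  induction n with
  | zero => norm_num
  | succ n ih =>
    rw [pow_succ]
    omega

theorem W_le (K : ℕ) : 100000 * (5 ^ (K + 1) * 5 ^ (K + 1) * ((K + 2) * (3 + shS K))) ≤
    5 ^ (4 * K + 15) := by
  have h1 : 3 + shS K ≤ 2 * 5 ^ (K + 4) := by
    have h := shS_le K
    unfold shi at h
    have : 2 * 5 ^ (K + 4) = 10 * 5 ^ (K + 3) := by ring
    omega
  have h2 : K + 2 ≤ 2 * 5 ^ K := by
    have := succ_le_pow5 K
    omega
  calc 100000 * (5 ^ (K + 1) * 5 ^ (K + 1) * ((K + 2) * (3 + shS K)))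
      ≤ 100000 * (5 ^ (K + 1) * 5 ^ (K + 1) * ((2 * 5 ^ K) * (2 * 5 ^ (K + 4)))) :=
        Nat.mul_le_mul_left _ (Nat.mul_le_mul_left _ (Nat.mul_le_mul h2 h1))
    _ = 128 * 5 ^ (4 * K + 11) := by ring
    _ ≤ 5 ^ 4 * 5 ^ (4 * K + 11) := Nat.mul_le_mul_right _ (by norm_num)
    _ = 5 ^ (4 * K + 15) := by ring

theorem V_le (L : ℕ) : 2 * (shQ (2 * L + 1) * (2 * L + 2).factorial) * 3 ^ (2 * L + 3) ≤
    5 ^ ((8 * L + 16) * (L + 1)) := by
  have h1 := shQ_le (2 * L + 1)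
  have h2 : (2 * L + 2).factorial ≤ 5 ^ ((2 * L + 1) * (2 * L + 2)) := by
    calc (2 * L + 2).factorial ≤ (2 * L + 2) ^ (2 * L + 2) := Nat.factorial_le_pow _
      _ ≤ (5 ^ (2 * L + 1)) ^ (2 * L + 2) := Nat.pow_le_pow_left (succ_le_pow5 (2 * L + 1)) _
      _ = 5 ^ ((2 * L + 1) * (2 * L + 2)) := by rw [← pow_mul]
  have h3 : 3 ^ (2 * L + 3) ≤ 5 ^ (2 * L + 3) := Nat.pow_le_pow_left (by norm_num) _
  calc 2 * (shQ (2 * L + 1) * (2 * L + 2).factorial) * 3 ^ (2 * L + 3)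
      ≤ 5 ^ 1 * (5 ^ ((2 * L + 1) * (2 * L + 1) + 4 * (2 * L + 1) + 1) *
          5 ^ ((2 * L + 1) * (2 * L + 2))) * 5 ^ (2 * L + 3) :=
        Nat.mul_le_mul (Nat.mul_le_mul (by norm_num) (Nat.mul_le_mul h1 h2)) h3
    _ = 5 ^ (1 + ((2 * L + 1) * (2 * L + 1) + 4 * (2 * L + 1) + 1 +
          (2 * L + 1) * (2 * L + 2)) + (2 * L + 3)) := by
        simp only [pow_add]
    _ ≤ 5 ^ ((8 * L + 16) * (L + 1)) := by
        refine Nat.pow_le_pow_right (by norm_num) ?_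
        nlinarith

/-- **Reachable slopes very close to every large integer, explicit form.** -/
theorem explicit_close (L : ℕ) {r : ℕ} (hr : 5 ^ (8 * L + 16) ≤ r) : ∃ δ σ, 4 ≤ δ ∧ δ * δ ≤ r ∧
    Reach δ σ ∧ 0 < (r : ℝ) - σ ∧ (r : ℝ) - σ ≤ 1 / (r : ℝ) ^ (L + 1) := by
  obtain ⟨K, hK⟩ : ∃ K : ℕ, K = 2 * L := ⟨_, rfl⟩
  obtain ⟨A, hA⟩ : ∃ A : ℕ, A = 5 ^ (K + 1) := ⟨_, rfl⟩
  have hA0 : 0 < A := by rw [hA]; positivity
  obtain ⟨W, hW⟩ : ∃ W : ℕ, W = (K + 2) * (3 + shS K) := ⟨_, rfl⟩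
  have hW0 : K + 2 ≤ W := by
    rw [hW]
    exact Nat.le_mul_of_pos_right _ (by omega)
  obtain ⟨V, hV⟩ : ∃ V : ℕ, V = 2 * (shQ (K + 1) * (K + 2).factorial) * 3 ^ (K + 3) := ⟨_, rfl⟩
  have hrW : 100000 * (A * A * W) ≤ r := by
    rw [hA, hW]
    refine (W_le K).trans (le_trans ?_ hr)
    refine Nat.pow_le_pow_right (by norm_num) ?_
    omega
  have hAA : A ≤ A * A := Nat.le_mul_of_pos_left A hA0
  have hAW : A * A ≤ A * A * W := Nat.le_mul_of_pos_right _ (by omega)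
  obtain ⟨δ, P, hP1, hP2, hP3, hP4⟩ := choose_delta (A := A) (r := r) hA0 (by omega)
  have hPW : 10000 * (A * W) ≤ P := by
    have h1 : A * (30000 * (A * W)) ≤ A * (3 * P) := by
      have e1 : A * (30000 * (A * W)) = 30000 * (A * A * W) := by ring
      have e2 : A * (3 * P) = 3 * (A * P) := by ring
      rw [e1, e2]
      omega
    have := Nat.le_of_mul_le_mul_left h1 hA0
    omega
  have hWAW : W ≤ A * W := Nat.le_mul_of_pos_left W hA0
  have hP5000 : 10000 ≤ P := by omega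
  have hPP : 128 * (K + 2) * r ≤ P * P := by
    have h1 : 10000 * (A * W) * P ≤ P * P := Nat.mul_le_mul_right P hPW
    have h2 : 10000 * (A * W) * P = 10000 * W * (A * P) := by ring
    have h3 : 128 * (K + 2) * r ≤ 128 * W * (3 * (A * P)) :=
      Nat.mul_le_mul (Nat.mul_le_mul_left _ hW0) hP4
    have h4 : 128 * W * (3 * (A * P)) = 384 * (W * (A * P)) := by ring
    have h5 : 10000 * W * (A * P) = 10000 * (W * (A * P)) := by ring
    omega
  have hPR : (10000 : ℝ) ≤ P := by exact_mod_cast hP5000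
  have hAP : P ≤ A * P := Nat.le_mul_of_pos_left P hA0
  have hrR : (10000 : ℝ) ≤ r := by
    have : 10000 ≤ r := by omega
    exact_mod_cast this
  have hPPR : 128 * ((K : ℝ) + 2) * r ≤ (P : ℝ) * P := by exact_mod_cast hPP
  have hδδ : 1000 ≤ δ * δ := by omega
  have hδ : 4 ≤ δ := by
    by_contra h
    have : δ * δ ≤ 3 * 3 := Nat.mul_le_mul (by omega) (by omega)
    omega
  have hK0 : (0 : ℝ) ≤ K := Nat.cast_nonneg K
  have hsm : Small r P := by
    intro p hp hpr hmod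
    obtain ⟨hg1, hg2⟩ := gam_le (p := p) (by omega) ((r - p) / 4)
    have hrr : p + 4 * ((r - p) / 4) = r := by omega
    rw [hrr] at hg1 hg2
    rw [abs_of_nonneg hg1]
    refine hg2.trans ?_
    have hpP : (P : ℝ) ≤ p := by exact_mod_cast hp
    have h1 : 0 ≤ 1 / (4 * ((p : ℝ) + 4 * (((r - p) / 4 : ℕ) : ℝ) - 2) ^ 2) := by positivity
    have h2 : 1 / (4 * ((p : ℝ) - 2) ^ 2) ≤ 1 / (32 * (r : ℝ)) := by
      refine div_le_div_of_nonneg_left (by norm_num) (by positivity) ?_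
      have h3 : ((P : ℝ) / 2) ^ 2 ≤ ((p : ℝ) - 2) ^ 2 :=
        pow_le_pow_left₀ (by linarith) (by linarith) 2
      have h4 : 256 * (r : ℝ) ≤ 128 * ((K : ℝ) + 2) * r := by nlinarith
      nlinarith
    linarith
  have hT : ∃ T, RR δ r P T ∧ wl 0 (P : ℝ) ≤ T ∧ T ≤ wu 0 (P : ℝ) := by
    rcases hP1 with rfl | rfl
    · exact start_two hδδ hP2 (by omega)
    · exact start_zero hδδ hP2 (by omega)
  obtain ⟨T, hT1, hT2, hT3⟩ := hT
  have hth : ∀ k ≤ K, 10 * ((k + 2) * (3 + shS k)) ≤ P := by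
    intro k hk
    have h1 : (k + 2) * (3 + shS k) ≤ (K + 2) * (3 + shS K) :=
      Nat.mul_le_mul (by omega) (by have := shS_mono hk; omega)
    rw [← hW] at h1
    omega
  obtain ⟨σ, T', hσ, hlog, hT'0, hT'⟩ := main_ind (K := K) (by omega) (by omega) hsm hP2 hth
    (by rw [← hA]; exact hP3) (by
      rw [div_le_div_iff₀ (by positivity) (by positivity)]
      nlinarith) hT1 hT2 hT3
  have hσ0 : 0 < σ := hσ.pos (by omega)
  have hr0 : (0 : ℝ) < r := by linarith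
  have hσe : σ = r * Real.exp (-(2 * T')) := by
    rw [← Real.exp_log hσ0, hlog, sub_eq_add_neg, Real.exp_add, Real.exp_log hr0]
  have hexp1 : Real.exp (-(2 * T')) < 1 := by
    rw [Real.exp_lt_one_iff]
    linarith
  have hexp2 : 1 - 2 * T' ≤ Real.exp (-(2 * T')) := by
    have := Real.add_one_le_exp (-(2 * T'))
    linarith
  refine ⟨δ, σ, hδ, by omega, hσ, ?_, ?_⟩
  · rw [hσe]
    nlinarith
  · have h1 : (r : ℝ) - σ ≤ 2 * r * T' := by
      rw [hσe]
      nlinarith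
    refine h1.trans ?_
    have h2 : (r : ℝ) / 3 ≤ 5 ^ (K + 1) * (P : ℝ) := by
      have h3 : (r : ℝ) ≤ 3 * ((A : ℝ) * P) := by exact_mod_cast hP4
      have h4 : (A : ℝ) = 5 ^ (K + 1) := by rw [hA]; push_cast; ring
      rw [h4] at h3
      linarith
    have h5 : wu (K + 1) (5 ^ (K + 1) * (P : ℝ)) ≤ ck (K + 1) / ((r : ℝ) / 3) ^ (K + 3) := by
      unfold wu
      have hc := ck_pos (K + 1)
      have h6 : ((r : ℝ) / 3) ^ (K + 3) ≤ (5 ^ (K + 1) * (P : ℝ)) ^ (K + 3) :=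
        pow_le_pow_left₀ (by positivity) h2 _
      have h7 : K + 1 + 2 = K + 3 := rfl
      rw [h7, div_le_div_iff₀ (by positivity) (by positivity)]
      have h8 : 0 < (5 ^ (K + 1) * (P : ℝ)) ^ (K + 3) := by positivity
      nlinarith [mul_le_mul_of_nonneg_left h6 hc.le, mul_pos hc h8]
    have h9 : ck (K + 1) / ((r : ℝ) / 3) ^ (K + 3) * (2 * r) = (V : ℝ) / (r : ℝ) ^ (K + 2) := by
      rw [hV]
      unfold ck
      have : K + 1 + 1 = K + 2 := rfl
      rw [this]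
      push_cast
      rw [div_pow, pow_succ (r : ℝ) (K + 2)]
      field_simp
    have h10 : (V : ℝ) / (r : ℝ) ^ (K + 2) ≤ 1 / (r : ℝ) ^ (L + 1) := by
      have h11 : (V : ℝ) ≤ (r : ℝ) ^ (L + 1) := by
        have h12 : V ≤ r ^ (L + 1) := by
          rw [hV, hK]
          refine (V_le L).trans ?_
          rw [pow_mul]
          exact Nat.pow_le_pow_left hr _
        exact_mod_cast h12
      have h13 : (r : ℝ) ^ (K + 2) = (r : ℝ) ^ (L + 1) * (r : ℝ) ^ (L + 1) := by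
        rw [hK, ← pow_add]
        congr 1
        ring
      have h14 : (0 : ℝ) < (r : ℝ) ^ (L + 1) := by positivity
      rw [h13, div_le_div_iff₀ (by positivity) (by positivity), one_mul]
      exact mul_le_mul_of_nonneg_right h11 h14.le
    calc 2 * r * T' ≤ 2 * r * (ck (K + 1) / ((r : ℝ) / 3) ^ (K + 3)) :=
          mul_le_mul_of_nonneg_left (hT'.trans h5) (by positivity)
      _ = (V : ℝ) / (r : ℝ) ^ (K + 2) := by rw [← h9]; ring
      _ ≤ 1 / (r : ℝ) ^ (L + 1) := h10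

end Pool.Agent.H713R3
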