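import Mathlib
import Pool.Agent.H932R3.Nagata
import Pool.Agent.H713R3.QClose

set_option autoImplicit false

/-!
# Emptiness of planar systems in a quasi-polynomial range
-/

namespace Pool.Agent.H713R3

open Pool.Agent.H932R3

/-- The integers between the square root of a reachable slope and that of a close integer. -/
theorem explicit_empt (k : ℕ) {r : ℕ} (hr : 5 ^ (16 * k + 16) ≤ r) {m d : ℕ} (hd : 0 < d)
    (h : (d ^ 2 ≤ r * m ^ 2 ∧ m ≤ r ^ k) ∨
      (1 + 1 / (r : ℝ) ^ k) * d ≤ m * Real.sqrt r) : Empt r m d := by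
  have hr2 : 16 ≤ r := by
    have h1 : 5 ^ 16 ≤ 5 ^ (16 * k + 16) := Nat.pow_le_pow_right (by norm_num) (by omega)
    have h2 : 16 ≤ 5 ^ 16 := by norm_num
    omega
  have hrR : (16 : ℝ) ≤ r := by exact_mod_cast hr2
  obtain ⟨δ, σ, hδ, hδr, hσ, h0, h1⟩ := explicit_close (2 * k) (r := r) (by
    refine le_trans (le_of_eq ?_) hr
    congr 1
    ring)
  have hσ0 : 0 < σ := hσ.pos (by omega)
  have hrk : (0 : ℝ) < (r : ℝ) ^ k := by positivity
  have hrk1 : (1 : ℝ) ≤ (r : ℝ) ^ k := one_le_pow₀ (by linarith)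
  have hpow : (r : ℝ) ^ (2 * k + 1) = ((r : ℝ) ^ k) ^ 2 * r := by
    rw [← pow_mul, mul_comm k 2, pow_succ]
  rcases h with ⟨h2, h3⟩ | h2
  · rcases Nat.lt_or_ge (d ^ 2) (r * m ^ 2) with h4 | h4
    · refine Empt.of_close hδ hδr hσ h0 ?_
      have h5 : (d : ℝ) ^ 2 + 1 ≤ r * (m : ℝ) ^ 2 := by exact_mod_cast h4
      have h6 : (m : ℝ) ^ 2 * (r - σ) ≤ 1 := by
        have h7 : (m : ℝ) ≤ (r : ℝ) ^ k := by exact_mod_cast h3
        have h8 : (m : ℝ) ^ 2 ≤ ((r : ℝ) ^ k) ^ 2 :=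
          pow_le_pow_left₀ (Nat.cast_nonneg m) h7 2
        calc (m : ℝ) ^ 2 * (r - σ) ≤ ((r : ℝ) ^ k) ^ 2 * (1 / (r : ℝ) ^ (2 * k + 1)) :=
              mul_le_mul h8 h1 h0.le (by positivity)
          _ = 1 / r := by
              rw [hpow]
              field_simp
          _ ≤ 1 := by
              rw [div_le_one (by linarith)]
              linarith
      nlinarith
    · have h5 : r * m ^ 2 = d ^ 2 := le_antisymm h4 h2
      have hm : 0 < m := by
        rcases Nat.eq_zero_or_pos m with rfl | hm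
        · have : d ^ 2 = 0 := by rw [← h5]; ring
          have := pow_pos hd 2
          omega
        · exact hm
      obtain ⟨c, rfl, hc⟩ := isSquare_of_mul_sq hm h5
      refine Empt.of_square ?_ (by rw [hc, mul_comm])
      by_contra hc4
      have : c * c ≤ 3 * 3 := Nat.mul_le_mul (by omega) (by omega)
      omega
  · refine Empt.of_close hδ hδr hσ h0 ?_
    have hsr : Real.sqrt r * Real.sqrt r = r := Real.mul_self_sqrt (by linarith)
    obtain ⟨ε, hε⟩ : ∃ ε, ε = 1 / (r : ℝ) ^ k := ⟨_, rfl⟩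
    have hε0 : 0 < ε := by rw [hε]; positivity
    have hε1 : ε ≤ 1 := by
      rw [hε, div_le_one hrk]
      exact hrk1
    rw [← hε] at h2
    have h3 : ((1 + ε) * d) ^ 2 ≤ m ^ 2 * r := by
      have h4 := pow_le_pow_left₀ (by positivity) h2 2
      rw [mul_pow (m : ℝ), pow_two (Real.sqrt r), hsr] at h4
      exact h4
    have h4 : (r : ℝ) - σ ≤ ε := by
      refine h1.trans ?_
      rw [hε, hpow]
      refine div_le_div_of_nonneg_left (by norm_num) hrk ?_
      nlinarith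
    have h5 : (r : ℝ) ≤ (1 + ε) ^ 2 * σ := by
      have h5a : (1 + ε) ^ 2 * (r - ε) ≤ (1 + ε) ^ 2 * σ :=
        mul_le_mul_of_nonneg_left (by linarith) (by positivity)
      have h5b : 0 ≤ ε * (2 * r - 1 - 2 * ε + ε * r - ε ^ 2) := by
        refine mul_nonneg hε0.le ?_
        nlinarith [mul_nonneg hε0.le (show (0 : ℝ) ≤ r by linarith), mul_nonneg hε0.le (show
          (0 : ℝ) ≤ 1 - ε by linarith)]
      nlinarith
    have h6 : ((1 + ε) * d) ^ 2 ≤ (1 + ε) ^ 2 * (m ^ 2 * σ) := by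
      calc ((1 + ε) * d) ^ 2 ≤ m ^ 2 * r := h3
        _ ≤ m ^ 2 * ((1 + ε) ^ 2 * σ) := mul_le_mul_of_nonneg_left h5 (by positivity)
        _ = (1 + ε) ^ 2 * (m ^ 2 * σ) := by ring
    rw [mul_pow] at h6
    exact le_of_mul_le_mul_left h6 (by positivity)

/-! ### Passing from powers to the quasi-polynomial function -/

theorem log5_le : Real.log 5 ≤ 33 / 20 := by
  have h1 : (5 : ℝ) ≤ Real.exp (33 / 20) := by
    have h2 : (2.7182818283 : ℝ) ≤ Real.exp 1 := Real.exp_one_gt_d9.le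
    have h3 : Real.exp (33 / 20) ^ 20 = Real.exp 1 ^ 33 := by
      rw [← Real.exp_nat_mul, ← Real.exp_nat_mul]
      norm_num
    by_contra hcon
    push Not at hcon
    have h4 : Real.exp (33 / 20) ^ 20 < 5 ^ 20 :=
      pow_lt_pow_left₀ hcon (Real.exp_pos _).le (by norm_num)
    have h5 : (2.7182818283 : ℝ) ^ 33 ≤ Real.exp 1 ^ 33 := pow_le_pow_left₀ (by norm_num) h2 _
    have h6 : (5 : ℝ) ^ 20 < (2.7182818283 : ℝ) ^ 33 := by norm_num
    linarith
  calc Real.log 5 ≤ Real.log (Real.exp (33 / 20)) := Real.log_le_log (by norm_num) h1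
    _ = 33 / 20 := Real.log_exp _

/-- For large `n`, a power `n ^ k` with `5 ^ (16 k + 16) ≤ n` exceeds `exp ((log n) ^ 2 / 32)`. -/
theorem exists_exponent {n : ℕ} (hn : 10 ^ 150 ≤ n) : ∃ k : ℕ, 5 ^ (16 * k + 16) ≤ n ∧
    Real.exp ((Real.log n) ^ 2 / 32) ≤ (n : ℝ) ^ k := by
  have hn0 : 0 < n := lt_of_lt_of_le (by positivity) hn
  have hnR : (0 : ℝ) < n := by exact_mod_cast hn0
  obtain ⟨x, hx⟩ : ∃ x, x = Real.log n := ⟨_, rfl⟩
  have hx1 : 303 ≤ x := by
    have h1 : (10 : ℝ) ^ 150 ≤ n := by exact_mod_cast hn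
    have h2 : Real.log ((10 : ℝ) ^ 150) ≤ x := by
      rw [hx]
      exact Real.log_le_log (by positivity) h1
    rw [Real.log_pow] at h2
    have h3 : Real.log 10 = Real.log 2 + Real.log 5 := by
      rw [← Real.log_mul (by norm_num) (by norm_num)]
      norm_num
    have h4 : (0.6931471803 : ℝ) < Real.log 2 := Real.log_two_gt_d9
    have h5 : (8 / 5 : ℝ) ≤ Real.log 5 := by
      have h6 : Real.exp (8 / 5) ≤ 5 := by
        have h7 : Real.exp (8 / 5) ^ 5 = Real.exp 1 ^ 8 := by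
          rw [← Real.exp_nat_mul, ← Real.exp_nat_mul]
          norm_num
        by_contra hcon
        push Not at hcon
        have h8 : (5 : ℝ) ^ 5 < Real.exp (8 / 5) ^ 5 :=
          pow_lt_pow_left₀ hcon (by norm_num) (by norm_num)
        have h9 : Real.exp 1 ^ 8 ≤ (2.7182818286 : ℝ) ^ 8 :=
          pow_le_pow_left₀ (Real.exp_pos _).le Real.exp_one_lt_d9.le _
        have h10 : (2.7182818286 : ℝ) ^ 8 < 5 ^ 5 := by norm_num
        linarith
      calc (8 / 5 : ℝ) = Real.log (Real.exp (8 / 5)) := (Real.log_exp _).symm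
        _ ≤ Real.log 5 := Real.log_le_log (Real.exp_pos _) h6
    rw [h3] at h2
    push_cast at h2
    nlinarith
  obtain ⟨q, hq⟩ : ∃ q, q = Nat.log 5 n := ⟨_, rfl⟩
  have hq1 : 5 ^ q ≤ n := by
    rw [hq]
    exact Nat.pow_log_le_self 5 hn0.ne'
  have hq2 : n < 5 ^ (q + 1) := by
    rw [hq]
    exact Nat.lt_pow_succ_log_self (by norm_num) n
  have hq3 : x ≤ (q + 1) * (33 / 20) := by
    have h1 : (n : ℝ) ≤ (5 : ℝ) ^ (q + 1) := by exact_mod_cast hq2.le
    have h2 : x ≤ Real.log ((5 : ℝ) ^ (q + 1)) := by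
      rw [hx]
      exact Real.log_le_log hnR h1
    rw [Real.log_pow] at h2
    have h3 := mul_le_mul_of_nonneg_left log5_le (show (0 : ℝ) ≤ ((q + 1 : ℕ) : ℝ) by positivity)
    push_cast at h2 h3
    linarith
  have hq16 : 32 ≤ q := by
    by_contra hcon
    push Not at hcon
    have : (q : ℝ) + 1 ≤ 32 := by exact_mod_cast hcon
    nlinarith
  obtain ⟨k, hk⟩ : ∃ k, k = (q - 16) / 16 := ⟨_, rfl⟩
  have hk1 : 16 * k + 16 ≤ q := by omega
  have hk2 : q ≤ 16 * k + 31 := by omega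
  refine ⟨k, (Nat.pow_le_pow_right (by norm_num) hk1).trans hq1, ?_⟩
  have hk3 : x / 32 ≤ k := by
    have h1 : (q : ℝ) ≤ 16 * k + 31 := by exact_mod_cast hk2
    linarith
  have h1 : (n : ℝ) ^ k = Real.exp (k * x) := by
    rw [Real.exp_nat_mul, hx, Real.exp_log hnR]
  rw [h1, ← hx]
  refine Real.exp_le_exp.2 ?_
  have : x ^ 2 / 32 = x / 32 * x := by ring
  rw [this]
  exact mul_le_mul_of_nonneg_right hk3 (by linarith)

end Pool.Agent.H713R3
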